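import Mathlib
import Pool.Agent.helper52.OSMain

/-!
For every `n > 4` there is a linearly orderable soluble group `G` of derived length exactly `n` with
exactly one normal relatively convex subgroup strictly between the trivial subgroup and `G`.
-/

namespace Pool.Agent.Results.MP_afa6c5_al.OneNormalRelConvex

/-- The total order `o` on the group `G` is invariant under multiplication on both sides. -/
def BiInvariant {G : Type} [Group G] (o : LinearOrder G) : Prop :=
  ∀ a b c : G, o.le a b → o.le (c * a) (c * b) ∧ o.le (a * c) (b * c)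

/-- `G` admits a bi-invariant total order. -/
def Orderable (G : Type) [Group G] : Prop :=
  ∃ o : LinearOrder G, BiInvariant o

/-- `H` is convex for some bi-invariant total order on `G`. -/
def RelConvex {G : Type} [Group G] (H : Subgroup G) : Prop :=
  ∃ o : LinearOrder G, BiInvariant o ∧
    ∀ h₁ ∈ H, ∀ h₂ ∈ H, ∀ g : G, o.le h₁ g → o.le g h₂ → g ∈ H

/-- For each `n > 4` there is a linearly orderable soluble group `G` of derived length exactly `n`
such that exactly one subgroup `H` with `1 ≠ H ≠ G` is both normal and relatively convex. -/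
theorem result (n : ℕ) (hn : 4 < n) : ∃ (G : Type) (_ : Group G),
    Orderable G ∧ derivedSeries G n = ⊥ ∧ derivedSeries G (n - 1) ≠ ⊥ ∧
    ∃! H : Subgroup G, H ≠ ⊥ ∧ H ≠ ⊤ ∧ H.Normal ∧ RelConvex H := by
  obtain ⟨k, rfl⟩ : ∃ k, n = k + 4 := ⟨n - 4, by omega⟩
  exact helper52.OS.main k

end Pool.Agent.Results.MP_afa6c5_al.OneNormalRelConvex
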